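import Pool.Agent.Q27.VS.Stm

/-!
# Project VS: jobs GERM, EXT1, EXT
-/

set_option autoImplicit false

open Set Topology Filter

namespace Pool.Agent.Q144.VS

open Pool.Agent.Q27.VS

section germ

variable {X : Type} [TopologicalSpace X] [CSp X] {G : Subgroup (X ≃ₜ X)}

theorem germ_base (hV : Vig G) {h : X ≃ₜ X} (hG : h ∈ G) {A : Set X} (hA : IsClopen A)
    (hAu : A ≠ univ) (hs : Sup h A) {E : Set X} (hE : IsClopen E) (hEu : E ≠ univ) {y : X}
    (hy : y ∈ E) (hy' : h y ∈ E) : ∃ k ∈ G, Sup k E ∧ ∀ᶠ x in 𝓝 y, k x = h x := by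
  obtain ⟨p, hpE, hp⟩ := open_avoid hE.2 ⟨y, hy⟩ (F := {y, h y}) (by simp)
  obtain ⟨q, hqA, hq⟩ := open_avoid (U := Aᶜ) hA.compl.2 (nonempty_compl.2 hAu)
    (F := {y, h y, p}) (by simp)
  obtain ⟨F, hF, hqF, hFA, hFd⟩ := clopen_avoid (U := Aᶜ) hA.compl.2 hqA (F := {y, h y, p})
    (by simp) hq
  obtain ⟨N', hN', hpN', hN'E, hN'd⟩ := clopen_avoid hE.2 hpE (F := {y, h y}) (by simp) hp
  have hyF : y ∉ F := fun h1 => Set.disjoint_left.1 hFd h1 (by simp)
  have hhyF : h y ∉ F := fun h1 => Set.disjoint_left.1 hFd h1 (by simp)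
  have hpF : p ∉ F := fun h1 => Set.disjoint_left.1 hFd h1 (by simp)
  have hyN' : y ∉ N' := fun h1 => Set.disjoint_left.1 hN'd h1 (by simp)
  have hhyN' : h y ∉ N' := fun h1 => Set.disjoint_left.1 hN'd h1 (by simp)
  obtain ⟨N, hNdef⟩ : ∃ N, N = (E \ F) \ N' := ⟨_, rfl⟩
  have hN : IsClopen N := by
    rw [hNdef]
    exact (hE.diff hF).diff hN'
  have hNE : N ⊆ E := by
    rw [hNdef]
    exact fun x hx => hx.1.1
  have hyN : y ∈ N := by
    rw [hNdef]
    exact ⟨⟨hy, hyF⟩, hyN'⟩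
  have hhyN : h y ∈ N := by
    rw [hNdef]
    exact ⟨⟨hy', hhyF⟩, hhyN'⟩
  have hpN : p ∉ N := by
    rw [hNdef]
    exact fun hx => hx.2 hpN'
  have hqN : q ∉ N := by
    rw [hNdef]
    exact fun hx => hx.1.2 hqF
  obtain ⟨w, hw⟩ := nonempty_compl.2 hEu
  obtain ⟨s, hsG, hs1, hs2⟩ := hV Nᶜ (Nᶜ \ F) (E \ N) hN.compl (hN.compl.diff hF)
    (hE.diff hN) (fun x hx => hx.1) (fun x hx => hx.2) ⟨p, hpN, hpF⟩ ⟨p, hpE, hpN⟩
    (fun h1 => by
      have h2 : q ∈ Nᶜ \ F := by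
        rw [h1]
        exact hqN
      exact h2.2 hqF)
    (fun h1 => by
      have h2 : w ∈ E \ N := by
        rw [h1]
        exact fun hx => hw (hNE hx)
      exact hw h2.1)
  refine ⟨s * h * s⁻¹, G.mul_mem (G.mul_mem hsG hG) (G.inv_mem hsG), ?_, ?_⟩
  · intro x hx
    have h1 : s⁻¹ x ∉ A := by
      intro h2
      by_cases h3 : s⁻¹ x ∈ N
      · have h4 := hs2 _ (not_not.2 h3)
        have h5 : s (s⁻¹ x) = x := by simp
        rw [h5] at h4
        rw [← h4] at h3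
        exact hx (hNE h3)
      · have h4 : s (s⁻¹ x) ∈ E \ N := hs1 ⟨s⁻¹ x, ⟨h3, fun h5 => hFA h5 h2⟩, rfl⟩
        have h5 : s (s⁻¹ x) = x := by simp
        rw [h5] at h4
        exact hx h4.1
    rw [Homeomorph.mul_apply, Homeomorph.mul_apply, hs _ h1]
    simp
  · have h1 : ∀ᶠ x in 𝓝 y, x ∈ N := hN.2.mem_nhds hyN
    have h2 : ∀ᶠ x in 𝓝 y, h x ∈ N := h.continuous.continuousAt.eventually (hN.2.mem_nhds hhyN)
    filter_upwards [h1, h2] with x hx hx'
    rw [Homeomorph.mul_apply, Homeomorph.mul_apply, hs2.inv _ (not_not.2 hx),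
      hs2 _ (not_not.2 hx')]

end germ

/-- JOB GERM -/
theorem germ (X : Type) [TopologicalSpace X] [CSp X] (h1 : S_gen X) : S_germ X := by
  intro G hV hS h hh
  have hcl : h ∈ Subgroup.closure {g | g ∈ G ∧ ∃ A, IsClopen A ∧ A ≠ univ ∧ Sup g A} := by
    rw [← h1 G hV hS]
    exact hh
  clear hh
  induction hcl using Subgroup.closure_induction with
  | mem h hh =>
    obtain ⟨hG, A, hA, hAu, hs⟩ := hh
    intro E hE hEu y hy hy'
    exact germ_base hV hG hA hAu hs hE hEu hy hy'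
  | one =>
    intro E hE hEu y hy hy'
    exact ⟨1, G.one_mem, Sup.one E, Eventually.of_forall fun x => rfl⟩
  | mul h₁ h₂ _ _ ih₁ ih₂ =>
    intro E hE hEu y hy hy'
    obtain ⟨w, hwE, hwz⟩ := open_avoid (U := Eᶜ) hE.compl.2 (nonempty_compl.2 hEu)
      (finite_singleton (h₂ y))
    obtain ⟨N, hN, hzN, -, hNd⟩ := clopen_avoid (x := h₂ y) isOpen_univ (mem_univ _)
      (finite_singleton w) (fun h3 => hwz (by rw [mem_singleton_iff] at h3 ⊢; exact h3.symm))
    have hwN : w ∉ N := fun h3 => Set.disjoint_left.1 hNd h3 rfl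
    have hE'u : E ∪ N ≠ univ := by
      intro h3
      have h4 : w ∈ E ∪ N := by
        rw [h3]
        trivial
      rcases h4 with h4 | h4
      · exact hwE h4
      · exact hwN h4
    have hE' : IsClopen (E ∪ N) := hE.union hN
    obtain ⟨k₂, hk₂, hs₂, he₂⟩ := ih₂ (E ∪ N) hE' hE'u y (Or.inl hy) (Or.inr hzN)
    obtain ⟨k₁, hk₁, hs₁, he₁⟩ := ih₁ (E ∪ N) hE' hE'u (h₂ y) (Or.inr hzN) (Or.inl hy')
    have he : ∀ᶠ x in 𝓝 y, (k₁ * k₂) x = (h₁ * h₂) x := by
      have h3 : ∀ᶠ x in 𝓝 y, k₁ (h₂ x) = h₁ (h₂ x) := h₂.continuous.continuousAt.eventually he₁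
      filter_upwards [h3, he₂] with x hx hx'
      rw [Homeomorph.mul_apply, Homeomorph.mul_apply, hx', hx]
    have hky : (k₁ * k₂) y ∈ E := by
      rw [he.self_of_nhds]
      exact hy'
    obtain ⟨k, hk, hs, hke⟩ := germ_base hV (G.mul_mem hk₁ hk₂) hE' hE'u (hs₁.mul hs₂) hE hEu
      hy hky
    refine ⟨k, hk, hs, ?_⟩
    filter_upwards [hke, he] with x hx hx'
    rw [hx, hx']
  | inv h _ ih =>
    intro E hE hEu y hy hy'
    obtain ⟨k, hk, hs, he⟩ := ih E hE hEu (h⁻¹ y) hy' (by simpa using hy)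
    refine ⟨k⁻¹, G.inv_mem hk, hs.inv, ?_⟩
    have h3 : ∀ᶠ x in 𝓝 y, k (h⁻¹ x) = h (h⁻¹ x) := (h⁻¹).continuous.continuousAt.eventually he
    filter_upwards [h3] with x hx
    have h4 : h (h⁻¹ x) = x := by simp
    rw [h4] at hx
    rw [Homeomorph.inv_apply, Homeomorph.symm_apply_eq]
    exact hx.symm

section ext

variable {X : Type} [TopologicalSpace X] [CSp X] {G : Subgroup (X ≃ₜ X)}

theorem ext1_base (h1 : S_germ X) (hV : Vig G) (hS : Simp G) {E B : Set X} (hE : IsClopen E)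
    (hEu : E ≠ univ) (hB : IsClopen B) (hBn : B.Nonempty) (hBE : B ⊆ E) {h : X ≃ₜ X} (hG : h ∈ G)
    (hhE : h '' B ⊆ E) (hne : B ∪ h '' B ≠ E) : ∃ g ∈ G, Sup g E ∧ ∀ x ∈ B, g x = h x := by
  obtain ⟨x, hx⟩ := nonempty_compl.2 hEu
  have hxB : x ∉ B := fun h2 => hx (hBE h2)
  have hxh : x ∉ h '' B := fun h2 => hx (hhE h2)
  have hhx : h x ∉ h '' B := by
    rintro ⟨b, hb, hbx⟩
    exact hxB (h.injective hbx ▸ hb)
  have hhB : IsClopen (h '' B) := image_clopen h hB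
  obtain ⟨k, hk, hks, hke⟩ := h1 G hV hS h⁻¹ (G.inv_mem hG) (h '' B)ᶜ hhB.compl (by
    intro h2
    obtain ⟨b, hb⟩ := hBn
    have h3 : h b ∈ (h '' B)ᶜ := by
      rw [h2]
      trivial
    exact h3 ⟨b, hb, rfl⟩) (h x) hhx (by simpa using hxh)
  have hfix : ∀ᶠ z in 𝓝 x, k (h z) = z := by
    have h2 : ∀ᶠ z in 𝓝 x, k (h z) = h⁻¹ (h z) := h.continuous.continuousAt.eventually hke
    filter_upwards [h2] with z hz
    rw [hz]
    simp
  obtain ⟨F, hF, hxF, hFU⟩ := clopen_nhd (x := x) (U := Eᶜ ∩ {z | k (h z) = z})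
    (Filter.inter_mem (hE.compl.2.mem_nhds hx) hfix)
  have hUc : IsClopen (B ∪ h '' B) := hB.union hhB
  have hUE : B ∪ h '' B ⊆ E := union_subset hBE hhE
  obtain ⟨d, hdE, hdU⟩ : ∃ d, d ∈ E ∧ d ∉ B ∪ h '' B := by
    by_contra hcon
    push Not at hcon
    exact hne (Subset.antisymm hUE hcon)
  obtain ⟨s, hsG, hs1, hs2⟩ := hV (B ∪ h '' B)ᶜ ((B ∪ h '' B)ᶜ \ F) (E \ (B ∪ h '' B)) hUc.compl
    (hUc.compl.diff hF) (hE.diff hUc) (fun z hz => hz.1) (fun z hz => hz.2)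
    ⟨d, hdU, fun h2 => (hFU h2).1 hdE⟩ ⟨d, hdE, hdU⟩
    (fun h2 => by
      have h3 : x ∈ (B ∪ h '' B)ᶜ \ F := by
        rw [h2]
        exact fun h4 => hx (hUE h4)
      exact h3.2 hxF)
    (fun h2 => by
      have h3 : x ∈ E \ (B ∪ h '' B) := by
        rw [h2]
        exact fun h4 => hx (hUE h4)
      exact hx h3.1)
  refine ⟨s * (k * h) * s⁻¹, G.mul_mem (G.mul_mem hsG (G.mul_mem hk hG)) (G.inv_mem hsG), ?_, ?_⟩
  · intro z hz
    have h2 : s⁻¹ z ∈ F := by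
      by_contra h3
      have h5 : s (s⁻¹ z) = z := by simp
      by_cases h4 : s⁻¹ z ∈ B ∪ h '' B
      · have h6 := hs2 _ (not_not.2 h4)
        rw [h5] at h6
        rw [← h6] at h4
        exact hz (hUE h4)
      · have h6 : s (s⁻¹ z) ∈ E \ (B ∪ h '' B) := hs1 ⟨s⁻¹ z, ⟨h4, h3⟩, rfl⟩
        rw [h5] at h6
        exact hz h6.1
    have h6 : k (h (s⁻¹ z)) = s⁻¹ z := (hFU h2).2
    rw [Homeomorph.mul_apply, Homeomorph.mul_apply, Homeomorph.mul_apply, h6]
    simp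
  · intro b hb
    rw [Homeomorph.mul_apply, Homeomorph.mul_apply, Homeomorph.mul_apply,
      hs2.inv _ (not_not.2 (Or.inl hb)), hks _ (not_not.2 ⟨b, hb, rfl⟩),
      hs2 _ (not_not.2 (Or.inr ⟨b, hb, rfl⟩))]

end ext

/-- JOB EXT1 -/
theorem ext1 (X : Type) [TopologicalSpace X] [CSp X] (h1 : S_germ X) : S_ext1 X := by
  intro G hV hS E B hE hEu hB hBE hBne h hG hhE hhne
  rcases B.eq_empty_or_nonempty with rfl | hBn
  · exact ⟨1, G.one_mem, Sup.one E, fun x hx => absurd hx (notMem_empty x)⟩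
  have hhB : IsClopen (h '' B) := image_clopen h hB
  obtain ⟨d, hdE, hdU⟩ : ∃ d, d ∈ E ∧ d ∉ h '' B := by
    by_contra hcon
    push Not at hcon
    exact hhne (Subset.antisymm hhE hcon)
  obtain ⟨B', hB', hB'n, hB's, ⟨z, hz, hzB'⟩⟩ := clopen_proper (U := E \ h '' B)
    (hE.diff hhB).2 ⟨d, hdE, hdU⟩
  obtain ⟨b0, hb0⟩ := hBn
  obtain ⟨c, hcG, hc1, hc2⟩ := hV E B B' hE hB hB' hBE (fun x hx => (hB's hx).1) ⟨b0, hb0⟩ hB'n
    hBne (fun h2 => by
      have h3 : h b0 ∈ B' := by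
        rw [h2]
        exact hhE ⟨b0, hb0, rfl⟩
      exact (hB's h3).2 ⟨b0, hb0, rfl⟩)
  have himg : (h * c⁻¹) '' (c '' B) = h '' B := by
    ext w
    constructor
    · rintro ⟨_, ⟨b, hb, rfl⟩, rfl⟩
      exact ⟨b, hb, by simp⟩
    · rintro ⟨b, hb, rfl⟩
      exact ⟨c b, ⟨b, hb, rfl⟩, by simp⟩
  obtain ⟨g₁, hg₁, hs₁, he₁⟩ := ext1_base h1 hV hS hE hEu (image_clopen c hB)
    ⟨c b0, b0, hb0, rfl⟩ (fun x hx => (hB's (hc1 hx)).1) (G.mul_mem hG (G.inv_mem hcG))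
    (by rw [himg]; exact hhE)
    (by
      rw [himg]
      intro h2
      have h3 : z ∈ c '' B ∪ h '' B := by
        rw [h2]
        exact hz.1
      rcases h3 with h3 | h3
      · exact hzB' (hc1 h3)
      · exact hz.2 h3)
  refine ⟨g₁ * c, G.mul_mem hg₁ hcG, hs₁.mul hc2, fun b hb => ?_⟩
  rw [Homeomorph.mul_apply, he₁ _ ⟨b, hb, rfl⟩]
  simp

/-- JOB EXT -/
theorem ext (X : Type) [TopologicalSpace X] [CSp X] (h1 : S_ext1 X) : S_ext X := by
  classical
  intro G hV hS ι s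
  induction s using Finset.induction_on with
  | empty =>
    intro Q u _ _ _ _ _ _
    exact ⟨1, G.one_mem, fun i hi => absurd hi (Finset.notMem_empty i)⟩
  | insert j s hj ih =>
    intro Q u hQ hu hd hd' hx hx'
    obtain ⟨x, hx⟩ := hx
    obtain ⟨x', hx'⟩ := hx'
    have hmem : ∀ i ∈ s, i ∈ insert j s := fun i hi => Finset.mem_insert_of_mem hi
    have hjm : j ∈ insert j s := Finset.mem_insert_self j s
    have hne : ∀ i ∈ s, i ≠ j := fun i hi h2 => hj (h2 ▸ hi)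
    obtain ⟨g', hg', he'⟩ := ih Q u (fun i hi => hQ i (hmem i hi)) (fun i hi => hu i (hmem i hi))
      (fun i hi k hk => hd i (hmem i hi) k (hmem k hk))
      (fun i hi k hk => hd' i (hmem i hi) k (hmem k hk))
      ⟨x, fun i hi => hx i (hmem i hi)⟩ ⟨x', fun i hi => hx' i (hmem i hi)⟩
    obtain ⟨D, hD⟩ : ∃ D, D = ⋃ i ∈ s, Q i := ⟨_, rfl⟩
    have hDc : IsClopen D := by
      rw [hD]
      exact isClopen_biUnion_finset fun i hi => hQ i (hmem i hi)
    have hmD : ∀ i ∈ s, Q i ⊆ D := by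
      intro i hi
      rw [hD]
      exact fun z hz => mem_biUnion hi hz
    have hmD' : ∀ z ∈ D, ∃ i ∈ s, z ∈ Q i := by
      intro z hz
      rw [hD] at hz
      simp only [mem_iUnion] at hz
      obtain ⟨i, hi, hz⟩ := hz
      exact ⟨i, hi, hz⟩
    rcases D.eq_empty_or_nonempty with hDe | hDn
    · refine ⟨u j, hu j hjm, fun i hi z hz => ?_⟩
      rcases Finset.mem_insert.1 hi with rfl | hi
      · rfl
      · have h2 := hmD i hi hz
        rw [hDe] at h2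
        exact absurd h2 (notMem_empty z)
    · obtain ⟨w, hw, hws, hwe⟩ := h1 G hV hS Dᶜ (Q j) hDc.compl (by
          intro h2
          obtain ⟨z, hz⟩ := hDn
          have h3 : z ∈ Dᶜ := by
            rw [h2]
            trivial
          exact h3 hz) (hQ j hjm)
        (fun z hz hzD => by
          obtain ⟨i, hi, hzi⟩ := hmD' z hzD
          exact Set.disjoint_left.1 (hd i (hmem i hi) j hjm (hne i hi)) hzi hz)
        (fun h2 => by
          have h3 : x ∈ Q j := by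
            rw [h2]
            intro hxD
            obtain ⟨i, hi, hxi⟩ := hmD' x hxD
            exact hx i (hmem i hi) hxi
          exact hx j hjm h3)
        (g'⁻¹ * u j) (G.mul_mem (G.inv_mem hg') (hu j hjm))
        (by
          rintro _ ⟨z, hz, rfl⟩ hzD
          obtain ⟨i, hi, hzi⟩ := hmD' _ hzD
          have h2 := he' i hi _ hzi
          have h3 : g' ((g'⁻¹ * u j) z) = u j z := by simp
          rw [h3] at h2
          exact Set.disjoint_left.1 (hd' i (hmem i hi) j hjm (hne i hi)) ⟨_, hzi, h2.symm⟩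
            ⟨z, hz, rfl⟩)
        (fun h2 => by
          have h3 : g'⁻¹ x' ∈ (g'⁻¹ * u j) '' Q j := by
            rw [h2]
            intro hxD
            obtain ⟨i, hi, hxi⟩ := hmD' _ hxD
            have h4 := he' i hi _ hxi
            have h5 : g' (g'⁻¹ x') = x' := by simp
            rw [h5] at h4
            exact hx' i (hmem i hi) ⟨_, hxi, h4.symm⟩
          obtain ⟨z, hz, hzx⟩ := h3
          have h4 : u j z = x' := by
            have := congrArg g' hzx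
            simpa using this
          exact hx' j hjm ⟨z, hz, h4⟩)
      refine ⟨g' * w, G.mul_mem hg' hw, fun i hi z hz => ?_⟩
      rw [Homeomorph.mul_apply]
      rcases Finset.mem_insert.1 hi with rfl | hi
      · rw [hwe z hz]
        simp
      · rw [hws z (not_not.2 (hmD i hi hz)), he' i hi z hz]

end Pool.Agent.Q144.VS
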