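import Pool.Agent.Q27.VS.Stm

/-!
# Project VS: job LOCATE
-/

set_option autoImplicit false
set_option linter.unusedSectionVars false

open Set Topology Filter

namespace Pool.Agent.Q144.VS

open Pool.Agent.Q27.VS

section locate

variable {X : Type} [TopologicalSpace X] [CSp X]

theorem loc_shrink (S : Finset (X ≃ₜ X)) {O : Set X} (hO : IsOpen O) (hne : O.Nonempty) :
    ∃ O' : Set X, IsOpen O' ∧ O'.Nonempty ∧ O' ⊆ O ∧
      ∀ w ∈ S, (∀ x ∈ O', w x = x) ∨ ∀ x ∈ O', w x ≠ x := by
  classical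
  induction S using Finset.induction_on with
  | empty => exact ⟨O, hO, hne, Subset.rfl, fun w hw => absurd hw (Finset.notMem_empty w)⟩
  | insert w S hw ih =>
    obtain ⟨O', h1, h2, h3, h4⟩ := ih
    by_cases h : ∀ x ∈ O', w x = x
    · refine ⟨O', h1, h2, h3, fun v hv => ?_⟩
      rcases Finset.mem_insert.1 hv with rfl | hv
      · exact Or.inl h
      · exact h4 v hv
    · push Not at h
      obtain ⟨x, hx, hwx⟩ := h
      have hc : IsOpen {x | w x ≠ x} := by
        have : IsClosed {x | w x = x} := isClosed_eq w.continuous continuous_id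
        exact this.isOpen_compl
      refine ⟨O' ∩ {x | w x ≠ x}, h1.inter hc, ⟨x, hx, hwx⟩, fun z hz => h3 hz.1, fun v hv => ?_⟩
      rcases Finset.mem_insert.1 hv with rfl | hv
      · exact Or.inr fun z hz => hz.2
      · rcases h4 v hv with h5 | h5
        · exact Or.inl fun z hz => h5 z hz.1
        · exact Or.inr fun z hz => h5 z hz.1

theorem loc_points (S : Finset (X ≃ₜ X)) {Λ : Type} {O : Λ → Set X} (hO : ∀ l, IsOpen (O l))
    (hne : ∀ l, (O l).Nonempty) (T : Finset Λ) : ∃ p : Λ → X, (∀ l, p l ∈ O l) ∧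
      ∀ l ∈ T, ∀ m ∈ T, l ≠ m → ∀ w ∈ S, ∀ w' ∈ S, w (p l) ≠ w' (p m) := by
  classical
  induction T using Finset.induction_on with
  | empty =>
    choose p hp using hne
    exact ⟨p, hp, fun l hl => absurd hl (Finset.notMem_empty l)⟩
  | insert j T hj ih =>
    obtain ⟨p, hp, h1⟩ := ih
    have hF : (((S ×ˢ S ×ˢ T).image fun q : (X ≃ₜ X) × (X ≃ₜ X) × Λ =>
        q.1⁻¹ (q.2.1 (p q.2.2)) : Finset X) : Set X).Finite := Finset.finite_toSet _
    obtain ⟨z, hz, hzF⟩ := open_avoid (hO j) (hne j) hF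
    have hzF' : ∀ w ∈ S, ∀ w' ∈ S, ∀ m ∈ T, w z ≠ w' (p m) := by
      intro w hw w' hw' m hm h2
      apply hzF
      rw [Finset.mem_coe, Finset.mem_image]
      refine ⟨(w, w', m), by simp [hw, hw', hm], ?_⟩
      show w⁻¹ (w' (p m)) = z
      rw [← h2]
      simp
    refine ⟨Function.update p j z, fun l => ?_, ?_⟩
    · by_cases hl : l = j
      · subst hl
        rwa [Function.update_self]
      · rw [Function.update_of_ne hl]
        exact hp l
    · intro l hl m hm hlm w hw w' hw'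
      rcases Finset.mem_insert.1 hl with h2 | h2
      · rcases Finset.mem_insert.1 hm with h3 | h3
        · exact absurd (h2.trans h3.symm) hlm
        · subst h2
          have hmj : m ≠ l := Ne.symm hlm
          rw [Function.update_self, Function.update_of_ne hmj]
          exact hzF' w hw w' hw' m h3
      · have hlj : l ≠ j := fun h => hj (h ▸ h2)
        rcases Finset.mem_insert.1 hm with h3 | h3
        · subst h3
          rw [Function.update_self, Function.update_of_ne hlj]
          exact Ne.symm (hzF' w' hw' w hw l h2)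
        · have hmj : m ≠ j := fun h => hj (h ▸ h3)
          rw [Function.update_of_ne hmj, Function.update_of_ne hlj]
          exact h1 l h2 m h3 hlm w hw w' hw'

theorem loc_nhd (w w' : X ≃ₜ X) {a b : X} (h : w a ≠ w' b) :
    ∃ U ∈ 𝓝 a, ∃ V ∈ 𝓝 b, Disjoint (w '' U) (w' '' V) := by
  obtain ⟨U, V, hU, hV, haU, hbV, hUV⟩ := t2_separation h
  refine ⟨w ⁻¹' U, w.continuous.continuousAt.preimage_mem_nhds (hU.mem_nhds haU), w' ⁻¹' V,
    w'.continuous.continuousAt.preimage_mem_nhds (hV.mem_nhds hbV), ?_⟩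
  exact hUV.mono (image_preimage_subset _ _) (image_preimage_subset _ _)

end locate

/-- JOB LOCATE -/
theorem locate (X : Type) [TopologicalSpace X] [CSp X] : S_locate X := by
  classical
  intro S Λ hΛ O hO hne
  have := Fintype.ofFinite Λ
  have hsh := fun l => loc_shrink S (hO l) (hne l)
  choose O' hO' hne' hsub hfix using hsh
  obtain ⟨p, hp, hpp⟩ := loc_points S hO' hne' Finset.univ
  -- neighbourhoods for pairs
  have hA : ∀ (l m : Λ) (w w' : X ≃ₜ X), ∃ U ∈ 𝓝 (p l), ∃ V ∈ 𝓝 (p m),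
      (l ≠ m → w ∈ S → w' ∈ S → Disjoint (w '' U) (w' '' V)) := by
    intro l m w w'
    by_cases h : l ≠ m ∧ w ∈ S ∧ w' ∈ S
    · obtain ⟨U, hU, V, hV, hUV⟩ := loc_nhd w w'
        (hpp l (Finset.mem_univ l) m (Finset.mem_univ m) h.1 w h.2.1 w' h.2.2)
      exact ⟨U, hU, V, hV, fun _ _ _ => hUV⟩
    · exact ⟨univ, univ_mem, univ, univ_mem, fun h1 h2 h3 => absurd ⟨h1, h2, h3⟩ h⟩
  choose U hU V hV hUV using hA
  have hB : ∀ (l : Λ) (w : X ≃ₜ X), ∃ W ∈ 𝓝 (p l), w (p l) ≠ p l → Disjoint (w '' W) W := by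
    intro l w
    by_cases h : w (p l) ≠ p l
    · obtain ⟨W, hW, W', hW', hWW⟩ := loc_nhd w 1 (a := p l) (b := p l) h
      refine ⟨W ∩ W', inter_mem hW hW', fun _ => ?_⟩
      rw [Set.disjoint_left] at hWW ⊢
      rintro x ⟨a, ha, rfl⟩ hx
      exact hWW ⟨a, ha.1, rfl⟩ ⟨w a, hx.2, rfl⟩
    · exact ⟨univ, univ_mem, fun h1 => absurd h1 h⟩
  choose W hW hWW using hB
  have hbig : ∀ l, (O' l ∩ (⋂ m, ⋂ w ∈ S, ⋂ w' ∈ S, (U l m w w' ∩ V m l w' w)) ∩
      ⋂ w ∈ S, W l w) ∈ 𝓝 (p l) := by
    intro l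
    refine inter_mem (inter_mem ((hO' l).mem_nhds (hp l)) ?_) ?_
    · refine (iInter_mem.2 fun m => ?_)
      refine (Filter.biInter_finset_mem S).2 fun w _ => ?_
      refine (Filter.biInter_finset_mem S).2 fun w' _ => ?_
      exact inter_mem (hU l m w w') (hV m l w' w)
    · exact (Filter.biInter_finset_mem S).2 fun w _ => hW l w
  have hN := fun l => clopen_nhd (hbig l)
  choose N hNc hpN hNs using hN
  refine ⟨N, hNc, fun l => ⟨p l, hpN l⟩, fun l x hx => hsub l (hNs l hx).1.1, ?_, ?_⟩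
  · intro l m hlm w hw w' hw'
    have h1 : N l ⊆ U l m w w' := by
      intro x hx
      have h2 := (hNs l hx).1.2
      simp only [mem_iInter] at h2
      exact (h2 m w hw w' hw').1
    have h3 : N m ⊆ V l m w w' := by
      intro x hx
      have h2 := (hNs m hx).1.2
      simp only [mem_iInter] at h2
      exact (h2 l w' hw' w hw).2
    exact (hUV l m w w' hlm hw hw').mono (image_mono h1) (image_mono h3)
  · intro l w hw
    rcases hfix l w hw with h1 | h1
    · exact Or.inl fun x hx => h1 x (hNs l hx).1.1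
    · right
      have h2 : N l ⊆ W l w := by
        intro x hx
        have h3 := (hNs l hx).2
        simp only [mem_iInter] at h3
        exact h3 w hw
      exact (hWW l w (h1 _ (hp l))).mono (image_mono h2) h2

end Pool.Agent.Q144.VS
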