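import Pool.Agent.Q27.VS.Stm

/-!
# Project VS: job SPLIT
-/

set_option autoImplicit false
set_option linter.unusedSectionVars false

open Set Topology Filter

namespace Pool.Agent.Q144.VS

open Pool.Agent.Q27.VS

section split

variable {X : Type} [TopologicalSpace X]

/-- a homeomorphism restricted to an invariant clopen set -/
theorem split_res (t : X ≃ₜ X) {W : Set X} (hW : IsClopen W) (hinv : ∀ x, t x ∈ W ↔ x ∈ W) :
    ∃ r : X ≃ₜ X, (∀ x ∈ W, r x = t x) ∧ ∀ x, x ∉ W → r x = x := by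
  classical
  have hinv' : ∀ x, t.symm x ∈ W ↔ x ∈ W := by
    intro x
    rw [← hinv (t.symm x), t.apply_symm_apply]
  have hf : ∀ a ∈ frontier W, ∀ (f g : X → X), f a = g a := by
    intro a ha
    rw [hW.frontier_eq] at ha
    exact absurd ha (notMem_empty a)
  refine ⟨{
    toFun := W.piecewise t id
    invFun := W.piecewise t.symm id
    left_inv := ?_
    right_inv := ?_
    continuous_toFun := Continuous.piecewise (fun a ha => hf a ha _ _) t.continuous continuous_id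
    continuous_invFun := Continuous.piecewise (fun a ha => hf a ha _ _) t.symm.continuous
      continuous_id }, ?_, ?_⟩
  · intro x
    by_cases hx : x ∈ W
    · rw [piecewise_eq_of_mem _ _ _ hx, piecewise_eq_of_mem _ _ _ ((hinv x).2 hx),
        t.symm_apply_apply]
    · rw [piecewise_eq_of_notMem _ _ _ hx, id, piecewise_eq_of_notMem _ _ _ hx, id]
  · intro x
    by_cases hx : x ∈ W
    · rw [piecewise_eq_of_mem _ _ _ hx, piecewise_eq_of_mem _ _ _ ((hinv' x).2 hx),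
        t.apply_symm_apply]
    · rw [piecewise_eq_of_notMem _ _ _ hx, id, piecewise_eq_of_notMem _ _ _ hx, id]
  · intro x hx
    exact piecewise_eq_of_mem _ _ _ hx
  · intro x hx
    exact piecewise_eq_of_notMem _ _ _ hx

/-- the invariant set of a subset of the base -/
def WW (t : X ≃ₜ X) (D : Set X) : Set X := D ∪ t '' D ∪ (t * t) '' D

theorem mem_WW {t : X ≃ₜ X} {D : Set X} {x : X} :
    x ∈ WW t D ↔ x ∈ D ∨ (∃ a ∈ D, x = t a) ∨ ∃ a ∈ D, x = t (t a) := by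
  unfold WW
  constructor
  · rintro ((h | ⟨a, ha, h⟩) | ⟨a, ha, h⟩)
    · exact Or.inl h
    · exact Or.inr (Or.inl ⟨a, ha, h.symm⟩)
    · exact Or.inr (Or.inr ⟨a, ha, h.symm⟩)
  · rintro (h | ⟨a, ha, h⟩ | ⟨a, ha, h⟩)
    · exact Or.inl (Or.inl h)
    · exact Or.inl (Or.inr ⟨a, ha, h.symm⟩)
    · exact Or.inr ⟨a, ha, h.symm⟩

theorem WW_clopen (t : X ≃ₜ X) {D : Set X} (hD : IsClopen D) : IsClopen (WW t D) :=
  (hD.union (image_clopen t hD)).union (image_clopen (t * t) hD)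

theorem WW_inv {t : X ≃ₜ X} {A D : Set X} (hT : IsTri t A) (hDA : D ⊆ A) (x : X) :
    t x ∈ WW t D ↔ x ∈ WW t D := by
  rw [mem_WW, mem_WW]
  constructor
  · rintro (h | ⟨a, ha, h⟩ | ⟨a, ha, h⟩)
    · right; right
      refine ⟨t x, h, ?_⟩
      apply t.injective
      rw [hT.cyc (t x) (hDA h)]
    · left
      rw [t.injective h]
      exact ha
    · right; left
      exact ⟨a, ha, t.injective h⟩
  · rintro (h | ⟨a, ha, h⟩ | ⟨a, ha, h⟩)
    · right; left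
      exact ⟨x, h, rfl⟩
    · right; right
      exact ⟨a, ha, by rw [h]⟩
    · left
      rw [h, hT.cyc a (hDA ha)]
      exact ha

theorem split_ex {t : X ≃ₜ X} {A D : Set X} (hT : IsTri t A) (hD : IsClopen D) (hDA : D ⊆ A) :
    ∃ r : X ≃ₜ X, (∀ x ∈ WW t D, r x = t x) ∧ ∀ x, x ∉ WW t D → r x = x :=
  split_res t (WW_clopen t hD) (WW_inv hT hDA)

theorem split_tri {t r : X ≃ₜ X} {A D : Set X} (hT : IsTri t A) (hDA : D ⊆ A)
    (h1 : ∀ x ∈ WW t D, r x = t x) (h2 : ∀ x, x ∉ WW t D → r x = x) :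
    IsTri r D ∧ (∀ x ∈ D, r x = t x) ∧ ∀ x ∈ D, r (t x) = t (t x) := by
  have e1 : ∀ a ∈ D, r a = t a := fun a ha => h1 a (mem_WW.2 (Or.inl ha))
  have e2 : ∀ a ∈ D, r (t a) = t (t a) := fun a ha =>
    h1 _ (mem_WW.2 (Or.inr (Or.inl ⟨a, ha, rfl⟩)))
  have e3 : ∀ a ∈ D, r (t (t a)) = a := fun a ha => by
    rw [h1 _ (mem_WW.2 (Or.inr (Or.inr ⟨a, ha, rfl⟩))), hT.cyc a (hDA ha)]
  refine ⟨⟨fun a ha h => ?_, fun a ha h => ?_, fun a ha => ?_, fun x h3 h4 h5 => ?_⟩, e1, e2⟩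
  · rw [e1 a ha] at h
    exact hT.d1 a (hDA ha) (hDA h)
  · rw [e1 a ha, e2 a ha] at h
    exact hT.d2 a (hDA ha) (hDA h)
  · rw [e1 a ha, e2 a ha, e3 a ha]
  · refine h2 x fun h => ?_
    rcases mem_WW.1 h with h | ⟨a, ha, h⟩ | ⟨a, ha, h⟩
    · exact h3 h
    · exact h4 a ha (by rw [e1 a ha]; exact h)
    · exact h5 a ha (by rw [e1 a ha, e2 a ha]; exact h)

theorem WW_disj {t : X ≃ₜ X} {A D D' : Set X} (hT : IsTri t A) (hDA : D ⊆ A) (hDA' : D' ⊆ A)
    (hd : ∀ x ∈ D, x ∉ D') {x : X} (hx : x ∈ WW t D) (hx' : x ∈ WW t D') : False := by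
  rw [mem_WW] at hx hx'
  rcases hx with h | ⟨a, ha, h⟩ | ⟨a, ha, h⟩ <;> rcases hx' with h' | ⟨b, hb, h'⟩ | ⟨b, hb, h'⟩
  · exact hd x h h'
  · exact hT.d1 b (hDA' hb) (h' ▸ hDA h)
  · exact hT.d2 b (hDA' hb) (h' ▸ hDA h)
  · exact hT.d1 a (hDA ha) (h ▸ hDA' h')
  · have : a = b := t.injective (h.symm.trans h')
    exact hd a ha (this ▸ hb)
  · have : a = t b := t.injective (h.symm.trans h')
    exact hT.d1 b (hDA' hb) (this ▸ hDA ha)
  · exact hT.d2 a (hDA ha) (h ▸ hDA' h')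
  · have : t a = b := t.injective (h.symm.trans h')
    exact hT.d1 a (hDA ha) (this ▸ hDA' hb)
  · have : a = b := t.injective (t.injective (h.symm.trans h'))
    exact hd a ha (this ▸ hb)

theorem WW_union (t : X ≃ₜ X) (D D' : Set X) (x : X) :
    x ∈ WW t (D ∪ D') ↔ x ∈ WW t D ∨ x ∈ WW t D' := by
  simp only [mem_WW, mem_union]
  constructor
  · rintro ((h | h) | ⟨a, (ha | ha), h⟩ | ⟨a, (ha | ha), h⟩)
    · exact Or.inl (Or.inl h)
    · exact Or.inr (Or.inl h)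
    · exact Or.inl (Or.inr (Or.inl ⟨a, ha, h⟩))
    · exact Or.inr (Or.inr (Or.inl ⟨a, ha, h⟩))
    · exact Or.inl (Or.inr (Or.inr ⟨a, ha, h⟩))
    · exact Or.inr (Or.inr (Or.inr ⟨a, ha, h⟩))
  · rintro ((h | ⟨a, ha, h⟩ | ⟨a, ha, h⟩) | (h | ⟨a, ha, h⟩ | ⟨a, ha, h⟩))
    · exact Or.inl (Or.inl h)
    · exact Or.inr (Or.inl ⟨a, Or.inl ha, h⟩)
    · exact Or.inr (Or.inr ⟨a, Or.inl ha, h⟩)
    · exact Or.inl (Or.inr h)
    · exact Or.inr (Or.inl ⟨a, Or.inr ha, h⟩)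
    · exact Or.inr (Or.inr ⟨a, Or.inr ha, h⟩)

end split

/-- JOB SPLIT -/
theorem split (X : Type) [TopologicalSpace X] [CSp X] : S_split X := by
  intro K t A hA hT hloc
  have key := hA.isClosed.isCompact.induction_on
    (p := fun S => ∃ N, IsClopen N ∧ S ⊆ N ∧ N ⊆ A ∧ (∀ D, IsClopen D → D ⊆ N →
      ∀ r : X ≃ₜ X, (∀ x ∈ WW t D, r x = t x) → (∀ x, x ∉ WW t D → r x = x) → r ∈ K))
    ?_ ?_ ?_ ?_
  · obtain ⟨N, hN, hAN, hNA, hNK⟩ := key
    refine hNK A hA hAN t (fun x _ => rfl) (fun x hx => ?_)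
    rw [mem_WW] at hx
    push Not at hx
    exact hT.out x hx.1 hx.2.1 hx.2.2
  · refine ⟨∅, isClopen_empty, Subset.rfl, empty_subset A, fun D hD hDe r h1 h2 => ?_⟩
    have hr : r = 1 := by
      ext x
      refine h2 x fun h => ?_
      rcases mem_WW.1 h with h | ⟨a, ha, h⟩ | ⟨a, ha, h⟩
      · exact hDe h
      · exact hDe ha
      · exact hDe ha
    rw [hr]
    exact K.one_mem
  · rintro S T hST ⟨N, hN, hTN, hNA, hNK⟩
    exact ⟨N, hN, hST.trans hTN, hNA, hNK⟩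
  · rintro S T ⟨N, hN, hSN, hNA, hNK⟩ ⟨N', hN', hTN', hNA', hNK'⟩
    refine ⟨N ∪ N', hN.union hN', union_subset_union hSN hTN', union_subset hNA hNA',
      fun D hD hDN r h1 h2 => ?_⟩
    have hDA : D ⊆ A := hDN.trans (union_subset hNA hNA')
    have hD1 : IsClopen (D ∩ N) := hD.inter hN
    have hD2 : IsClopen (D \ N) := hD.diff hN
    have hD1N : D ∩ N ⊆ N := inter_subset_right
    have hD2N : D \ N ⊆ N' := fun x hx => (hDN hx.1).resolve_left hx.2
    obtain ⟨r1, ha1, hb1⟩ := split_ex hT hD1 (hD1N.trans hNA)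
    obtain ⟨r2, ha2, hb2⟩ := split_ex hT hD2 (hD2N.trans hNA')
    have hDD : D = (D ∩ N) ∪ (D \ N) := (inter_union_sdiff D N).symm
    have hr : r = r1 * r2 := by
      ext x
      rw [Homeomorph.mul_apply]
      by_cases hx2 : x ∈ WW t (D \ N)
      · have hx1 : t x ∉ WW t (D ∩ N) := fun h => WW_disj hT (hD1N.trans hNA) (hD2N.trans hNA')
          (fun z hz hz' => hz'.2 hz.2) h ((WW_inv hT (hD2N.trans hNA') x).2 hx2)
        rw [ha2 x hx2, hb1 _ hx1]
        refine h1 x ?_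
        rw [hDD, WW_union]
        exact Or.inr hx2
      · rw [hb2 x hx2]
        by_cases hx1 : x ∈ WW t (D ∩ N)
        · rw [ha1 x hx1]
          refine h1 x ?_
          rw [hDD, WW_union]
          exact Or.inl hx1
        · rw [hb1 x hx1]
          refine h2 x ?_
          rw [hDD, WW_union]
          rintro (h | h)
          · exact hx1 h
          · exact hx2 h
    rw [hr]
    exact K.mul_mem (hNK _ hD1 hD1N r1 ha1 hb1) (hNK' _ hD2 hD2N r2 ha2 hb2)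
  · intro x hx
    obtain ⟨N, hN, hxN, hNA, hNK⟩ := hloc x hx
    refine ⟨N, mem_nhdsWithin_of_mem_nhds (hN.2.mem_nhds hxN), N, hN, Subset.rfl, hNA,
      fun D hD hDN r h1 h2 => ?_⟩
    obtain ⟨h3, h4, h5⟩ := split_tri hT (hDN.trans hNA) h1 h2
    exact hNK D hD hDN r h3 h4 h5

end Pool.Agent.Q144.VS
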