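import Pool.Agent.Q27.VS.Stm

/-!
# Project VS: job TOWER
-/

set_option autoImplicit false
set_option linter.unusedSectionVars false

open Set Topology Filter

namespace Pool.Agent.Q144.VS

open Pool.Agent.Q27.VS

section tower

variable {X : Type} [TopologicalSpace X] {n : ℕ} (e : Fin n → (X ≃ₜ X)) (B : Set X)

open Classical in
/-- the action of a permutation -/
noncomputable def tf (π : Equiv.Perm (Fin n)) (x : X) : X :=
  if h : ∃ s, x ∈ e s '' B then e (π h.choose) ((e h.choose)⁻¹ x) else x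

variable {e B}

theorem tf_in (hd : ∀ s t, s ≠ t → Disjoint (e s '' B) (e t '' B)) (π : Equiv.Perm (Fin n))
    (s : Fin n) {b : X} (hb : b ∈ B) : tf e B π (e s b) = e (π s) b := by
  have h : ∃ s', e s b ∈ e s' '' B := ⟨s, b, hb, rfl⟩
  have h1 : h.choose = s := by
    by_contra hne
    exact Set.disjoint_left.1 (hd _ _ hne) h.choose_spec ⟨b, hb, rfl⟩
  unfold tf
  rw [dif_pos h, h1]
  simp

theorem tf_out (π : Equiv.Perm (Fin n)) {x : X} (hx : ∀ s, x ∉ e s '' B) : tf e B π x = x := by
  unfold tf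
  rw [dif_neg]
  push Not
  exact hx

theorem tf_one (hd : ∀ s t, s ≠ t → Disjoint (e s '' B) (e t '' B)) (x : X) :
    tf e B 1 x = x := by
  by_cases hx : ∀ s, x ∉ e s '' B
  · exact tf_out 1 hx
  · push Not at hx
    obtain ⟨s, b, hb, rfl⟩ := hx
    rw [tf_in hd 1 s hb]
    rfl

theorem tf_mul (hd : ∀ s t, s ≠ t → Disjoint (e s '' B) (e t '' B)) (π ρ : Equiv.Perm (Fin n))
    (x : X) : tf e B (π * ρ) x = tf e B π (tf e B ρ x) := by
  by_cases hx : ∀ s, x ∉ e s '' B
  · rw [tf_out _ hx, tf_out _ hx, tf_out _ hx]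
  · push Not at hx
    obtain ⟨s, b, hb, rfl⟩ := hx
    rw [tf_in hd _ s hb, tf_in hd ρ s hb, tf_in hd π (ρ s) hb]
    rfl

theorem tf_loc {G : Subgroup (X ≃ₜ X)} (hB : IsClopen B) (he : ∀ s, e s ∈ G)
    (hd : ∀ s t, s ≠ t → Disjoint (e s '' B) (e t '' B)) (π : Equiv.Perm (Fin n)) :
    Loc G (tf e B π) := by
  intro x
  by_cases hx : ∀ s, x ∉ e s '' B
  · refine ⟨1, G.one_mem, ?_⟩
    have hc : IsClopen (⋃ s, e s '' B) := isClopen_iUnion_of_finite fun s => image_clopen (e s) hB
    have hxc : x ∈ (⋃ s, e s '' B)ᶜ := by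
      simp only [mem_compl_iff, mem_iUnion, not_exists]
      exact hx
    filter_upwards [hc.compl.2.mem_nhds hxc] with y hy
    simp only [mem_compl_iff, mem_iUnion, not_exists] at hy
    exact tf_out π hy
  · push Not at hx
    obtain ⟨s, hs⟩ := hx
    refine ⟨e (π s) * (e s)⁻¹, G.mul_mem (he _) (G.inv_mem (he _)), ?_⟩
    filter_upwards [(image_clopen (e s) hB).2.mem_nhds hs] with y hy
    obtain ⟨b, hb, rfl⟩ := hy
    rw [tf_in hd π s hb]
    simp

theorem tf_cont {G : Subgroup (X ≃ₜ X)} (hB : IsClopen B) (he : ∀ s, e s ∈ G)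
    (hd : ∀ s t, s ≠ t → Disjoint (e s '' B) (e t '' B)) (π : Equiv.Perm (Fin n)) :
    Continuous (tf e B π) := by
  rw [continuous_iff_continuousAt]
  intro x
  obtain ⟨g, -, hg⟩ := tf_loc hB he hd π x
  exact g.continuous.continuousAt.congr (hg.mono fun y hy => hy.symm)

end tower

/-- JOB TOWER -/
theorem tower (X : Type) [TopologicalSpace X] [CSp X] (h1 : S_tri X) : S_tower X := by
  intro G hV hS n e B hB he hd
  let Ψ : Equiv.Perm (Fin n) →* (X ≃ₜ X) :=
    { toFun := fun π =>
        { toFun := tf e B π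
          invFun := tf e B π⁻¹
          left_inv := fun x => by rw [← tf_mul hd, inv_mul_cancel, tf_one hd]
          right_inv := fun x => by rw [← tf_mul hd, mul_inv_cancel, tf_one hd]
          continuous_toFun := tf_cont hB he hd π
          continuous_invFun := tf_cont hB he hd π⁻¹ }
      map_one' := by
        ext x
        exact tf_one hd x
      map_mul' := fun π ρ => by
        ext x
        exact tf_mul hd π ρ x }
  have hΨ : ∀ π x, Ψ π x = tf e B π x := fun π x => rfl
  have hin : ∀ π s, ∀ b ∈ B, Ψ π (e s b) = e (π s) b := fun π s b hb => tf_in hd π s hb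
  have hout : ∀ π x, (∀ s, x ∉ e s '' B) → Ψ π x = x := fun π x hx => tf_out π hx
  refine ⟨Ψ, hin, hout, ?_⟩
  have hne : ∀ s t : Fin n, s ≠ t → ∀ a ∈ B, e s a ∉ e t '' B := by
    intro s t hst a ha h2
    exact Set.disjoint_left.1 (hd s t hst) ⟨a, ha, rfl⟩ h2
  have h3c : ∀ π : Equiv.Perm (Fin n), π.IsThreeCycle → Ψ π ∈ G := by
    intro π hπ
    have hcard : π.support.card = 3 := hπ.card_support
    obtain ⟨a, ha⟩ : π.support.Nonempty := by
      rw [← Finset.card_pos, hcard]
      norm_num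
    have ha1 : π a ≠ a := Equiv.Perm.mem_support.1 ha
    have hπ3 : π ^ 3 = 1 := by
      rw [← hπ.orderOf]
      exact pow_orderOf_eq_one π
    have hπa : π (π (π a)) = a := by
      have := congrArg (fun f : Equiv.Perm (Fin n) => f a) hπ3
      simpa [pow_succ, Equiv.Perm.mul_apply] using this
    have ha2 : π (π a) ≠ a := by
      intro h2
      rw [h2] at hπa
      exact ha1 hπa
    have ha3 : π (π a) ≠ π a := fun h2 => ha1 (π.injective h2)
    have hsupp : ∀ s, s ≠ a → s ≠ π a → s ≠ π (π a) → π s = s := by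
      intro s h2 h3 h4
      by_contra h5
      have h6 : ({s, a, π a, π (π a)} : Finset (Fin n)) ⊆ π.support := by
        intro z hz
        simp only [Finset.mem_insert, Finset.mem_singleton] at hz
        rw [Equiv.Perm.mem_support]
        rcases hz with rfl | rfl | rfl | rfl
        · exact h5
        · exact ha1
        · exact ha3
        · rw [hπa]
          exact Ne.symm ha2
      have h7 := Finset.card_le_card h6
      rw [hcard, Finset.card_insert_of_notMem, Finset.card_insert_of_notMem,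
        Finset.card_insert_of_notMem, Finset.card_singleton] at h7
      · omega
      · simpa using Ne.symm ha3
      · simp only [Finset.mem_insert, Finset.mem_singleton, not_or]
        exact ⟨Ne.symm ha1, Ne.symm ha2⟩
      · simp only [Finset.mem_insert, Finset.mem_singleton, not_or]
        exact ⟨h2, h3, h4⟩
    refine h1 G hV hS (Ψ π) (tf_loc hB he hd π) (e a '' B) (image_clopen (e a) hB) ⟨?_, ?_, ?_, ?_⟩
    · rintro _ ⟨b, hb, rfl⟩
      rw [hin π a b hb]
      exact hne _ _ ha1 b hb
    · rintro _ ⟨b, hb, rfl⟩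
      rw [hin π a b hb, hin π _ b hb]
      exact hne _ _ ha2 b hb
    · rintro _ ⟨b, hb, rfl⟩
      rw [hin π a b hb, hin π _ b hb, hin π _ b hb, hπa]
    · intro x hx1 hx2 hx3
      by_cases hx : ∀ s, x ∉ e s '' B
      · exact hout π x hx
      · push Not at hx
        obtain ⟨s, b, hb, rfl⟩ := hx
        rw [hin π s b hb]
        have h4 : s ≠ a := fun h => hx1 (h ▸ ⟨b, hb, rfl⟩)
        have h5 : s ≠ π a := fun h => hx2 (e a b) ⟨b, hb, rfl⟩ (by rw [hin π a b hb, h])
        have h6 : s ≠ π (π a) := fun h => hx3 (e a b) ⟨b, hb, rfl⟩ (by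
          rw [hin π a b hb, hin π _ b hb, h])
        rw [hsupp s h4 h5 h6]
  intro π hπ
  have h2 : π ∈ Subgroup.closure {σ : Equiv.Perm (Fin n) | σ.IsThreeCycle} := by
    rw [Equiv.Perm.closure_three_cycles_eq_alternating, Equiv.Perm.mem_alternatingGroup]
    exact hπ
  induction h2 using Subgroup.closure_induction with
  | mem σ hσ => exact h3c σ hσ
  | one =>
    rw [map_one]
    exact G.one_mem
  | mul σ τ hσ hτ ih1 ih2 =>
    rw [map_mul]
    refine G.mul_mem (ih1 ?_) (ih2 ?_)
    · rwa [Equiv.Perm.closure_three_cycles_eq_alternating, Equiv.Perm.mem_alternatingGroup] at hσ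
    · rwa [Equiv.Perm.closure_three_cycles_eq_alternating, Equiv.Perm.mem_alternatingGroup] at hτ
  | inv σ hσ ih =>
    rw [map_inv]
    refine G.inv_mem (ih ?_)
    rwa [Equiv.Perm.closure_three_cycles_eq_alternating, Equiv.Perm.mem_alternatingGroup] at hσ

end Pool.Agent.Q144.VS
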