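import Pool.Agent.Q27.VS.Stm

/-!
# Project VS: job TRI
-/

set_option autoImplicit false

open Set Topology Filter

namespace Pool.Agent.Q144.VS

open Pool.Agent.Q27.VS

section tri

variable {X : Type} [TopologicalSpace X] [CSp X] {G : Subgroup (X ≃ₜ X)}

theorem tri_swap (h1 : S_ext X) (hV : Vig G) (hS : Simp G) {γ : X ≃ₜ X} (hγ : γ ∈ G)
    {D Z : Set X} (hD : IsClopen D) (hZ : IsClopen Z) (hZn : Z.Nonempty)
    (hdis : ∀ a ∈ D, γ a ∉ D) (hZD : ∀ z ∈ Z, z ∉ D) (hZD' : ∀ z ∈ Z, z ∉ γ '' D) :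
    ∃ y ∈ G, (∀ a ∈ D, y a = γ a) ∧
      ∀ z, z ∉ D → z ∉ γ '' D → z ∉ Z → y z = z := by
  have hγD : IsClopen (γ '' D) := image_clopen γ hD
  have hdis' : Disjoint D (γ '' D) := by
    rw [Set.disjoint_left]
    rintro _ hx ⟨a, ha, rfl⟩
    exact hdis a ha hx
  have hinv : (γ⁻¹ : X ≃ₜ X) '' (γ '' D) = D := by
    ext z
    constructor
    · rintro ⟨_, ⟨a, ha, rfl⟩, rfl⟩
      simpa using ha
    · intro hz
      exact ⟨γ z, ⟨z, hz, rfl⟩, by simp⟩
  have hone : ∀ S : Set X, (1 : X ≃ₜ X) '' S = S := by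
    intro S
    ext z
    constructor
    · rintro ⟨a, ha, rfl⟩
      exact ha
    · intro hz
      exact ⟨z, hz, rfl⟩
  have hc1 : Disjoint D (D ∪ γ '' D ∪ Z)ᶜ := by
    rw [Set.disjoint_left]
    exact fun z hz h2 => h2 (Or.inl (Or.inl hz))
  have hc2 : Disjoint (γ '' D) (D ∪ γ '' D ∪ Z)ᶜ := by
    rw [Set.disjoint_left]
    exact fun z hz h2 => h2 (Or.inl (Or.inr hz))
  obtain ⟨z0, hz0⟩ := hZn
  obtain ⟨y, hy, hye⟩ := h1 G hV hS (Fin 3) Finset.univ ![D, γ '' D, (D ∪ γ '' D ∪ Z)ᶜ]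
    ![γ, γ⁻¹, 1] (by
      intro i _
      fin_cases i
      · exact hD
      · exact hγD
      · exact ((hD.union hγD).union hZ).compl) (by
      intro i _
      fin_cases i
      · exact hγ
      · exact G.inv_mem hγ
      · exact G.one_mem) (by
      intro i _ j _ hij
      fin_cases i <;> fin_cases j
      · exact absurd rfl hij
      · exact hdis'
      · exact hc1
      · exact hdis'.symm
      · exact absurd rfl hij
      · exact hc2
      · exact hc1.symm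
      · exact hc2.symm
      · exact absurd rfl hij) (by
      intro i _ j _ hij
      fin_cases i <;> fin_cases j
      · exact absurd rfl hij
      · change Disjoint (γ '' D) ((γ⁻¹ : X ≃ₜ X) '' (γ '' D))
        rw [hinv]
        exact hdis'.symm
      · change Disjoint (γ '' D) ((1 : X ≃ₜ X) '' (D ∪ γ '' D ∪ Z)ᶜ)
        rw [hone]
        exact hc2
      · change Disjoint ((γ⁻¹ : X ≃ₜ X) '' (γ '' D)) (γ '' D)
        rw [hinv]
        exact hdis'
      · exact absurd rfl hij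
      · change Disjoint ((γ⁻¹ : X ≃ₜ X) '' (γ '' D)) ((1 : X ≃ₜ X) '' (D ∪ γ '' D ∪ Z)ᶜ)
        rw [hinv, hone]
        exact hc1
      · change Disjoint ((1 : X ≃ₜ X) '' (D ∪ γ '' D ∪ Z)ᶜ) (γ '' D)
        rw [hone]
        exact hc2.symm
      · change Disjoint ((1 : X ≃ₜ X) '' (D ∪ γ '' D ∪ Z)ᶜ) ((γ⁻¹ : X ≃ₜ X) '' (γ '' D))
        rw [hinv, hone]
        exact hc1.symm
      · exact absurd rfl hij) ⟨z0, by
      intro i _
      fin_cases i
      · exact hZD z0 hz0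
      · exact hZD' z0 hz0
      · exact fun h2 => h2 (Or.inr hz0)⟩ ⟨z0, by
      intro i _
      fin_cases i
      · exact hZD' z0 hz0
      · change z0 ∉ (γ⁻¹ : X ≃ₜ X) '' (γ '' D)
        rw [hinv]
        exact hZD z0 hz0
      · change z0 ∉ (1 : X ≃ₜ X) '' (D ∪ γ '' D ∪ Z)ᶜ
        rw [hone]
        exact fun h2 => h2 (Or.inr hz0)⟩
  refine ⟨y, hy, fun a ha => hye 0 (Finset.mem_univ _) a ha, fun z hz1 hz2 hz3 => ?_⟩
  exact hye 2 (Finset.mem_univ _) z (fun h2 => by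
    rcases h2 with (h2 | h2) | h2
    · exact hz1 h2
    · exact hz2 h2
    · exact hz3 h2)

end tri

/-- JOB TRI -/
theorem tri (X : Type) [TopologicalSpace X] [CSp X] (h1 : S_ext X) (h2 : S_comm X)
    (h3 : S_split X) : S_tri X := by
  intro G hV hS t ht A hA hT
  refine h3 G t A hA hT fun x hx => ?_
  obtain ⟨γ₁, hγ₁, he₁⟩ := ht x
  obtain ⟨γ, hγ, he⟩ := ht (t x)
  have he' : ∀ᶠ z in 𝓝 x, t (t z) = γ (t z) := t.continuous.continuousAt.eventually he
  obtain ⟨x', hx'A, hx'⟩ := open_avoid hA.2 ⟨x, hx⟩ (finite_singleton x)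
  have hxx' : x ≠ x' := fun h4 => hx' h4.symm
  obtain ⟨N, hN, hxN, hNU⟩ := clopen_nhd (x := x)
    (U := (A ∩ {x'}ᶜ) ∩ ({z | t z = γ₁ z} ∩ {z | t (t z) = γ (t z)}))
    (Filter.inter_mem ((hA.2.inter isOpen_compl_singleton).mem_nhds ⟨hx, hxx'⟩)
      (Filter.inter_mem he₁ he'))
  refine ⟨N, hN, hxN, fun z hz => (hNU hz).1.1, ?_⟩
  intro D hD hDN r hr hr1 hr2
  rcases D.eq_empty_or_nonempty with rfl | hDn
  · have h4 : r = 1 := by
      ext z
      exact hr.out z (notMem_empty z) (fun a ha => absurd ha (notMem_empty a))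
        (fun a ha => absurd ha (notMem_empty a))
    rw [h4]
    exact G.one_mem
  have hDA : ∀ a ∈ D, a ∈ A := fun a ha => (hNU (hDN ha)).1.1
  have hg1 : ∀ a ∈ D, γ₁ a = t a := fun a ha => ((hNU (hDN ha)).2.1).symm
  have hg2 : ∀ a ∈ D, (γ * γ₁) a = t (t a) := by
    intro a ha
    rw [Homeomorph.mul_apply, hg1 a ha]
    exact ((hNU (hDN ha)).2.2).symm
  have hx'D : x' ∉ D := fun h4 => (hNU (hDN h4)).1.2 rfl
  have hi1 : γ₁ '' D = t '' D := image_congr hg1
  have hi2 : (γ * γ₁) '' D = (t * t) '' D := image_congr hg2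
  have htD : IsClopen (t '' D) := image_clopen t hD
  have httD : IsClopen ((t * t) '' D) := image_clopen (t * t) hD
  obtain ⟨Z, hZ1, hZ2, hZ3, hZ4, -⟩ := pieces 2 (U := (D ∪ t '' D ∪ (t * t) '' D)ᶜ)
    ((hD.union htD).union httD).compl.2 ⟨x', by
      rintro ((h4 | ⟨a, ha, h4⟩) | ⟨a, ha, h4⟩)
      · exact hx'D h4
      · exact hT.d1 a (hDA a ha) (by rw [h4]; exact hx'A)
      · have h5 : t (t a) = x' := h4
        exact hT.d2 a (hDA a ha) (by rw [h5]; exact hx'A)⟩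
  obtain ⟨y, hy, hy1, hy2⟩ := tri_swap h1 hV hS hγ₁ hD (hZ1 0) (hZ2 0)
    (fun a ha h4 => hT.d1 a (hDA a ha) (by rw [← hg1 a ha]; exact hDA _ h4))
    (fun z hz h4 => hZ3 0 hz (Or.inl (Or.inl h4)))
    (fun z hz h4 => hZ3 0 hz (Or.inl (Or.inr (by rw [← hi1]; exact h4))))
  obtain ⟨y', hy', hy'1, hy'2⟩ := tri_swap h1 hV hS (G.mul_mem hγ hγ₁) hD (hZ1 1) (hZ2 1)
    (fun a ha h4 => hT.d2 a (hDA a ha) (by rw [← hg2 a ha]; exact hDA _ h4))
    (fun z hz h4 => hZ3 1 hz (Or.inl (Or.inl h4)))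
    (fun z hz h4 => hZ3 1 hz (Or.inr (by rw [← hi2]; exact h4)))
  rw [hi1] at hy2
  rw [hi2] at hy'2
  have hyt : ∀ a ∈ D, y a = t a := fun a ha => by rw [hy1 a ha, hg1 a ha]
  have hyt' : ∀ a ∈ D, y' a = t (t a) := fun a ha => by rw [hy'1 a ha, hg2 a ha]
  obtain ⟨c1, c2, c3, c4⟩ := h2 y y' D (by
      intro z hz hz'
      by_contra hzD
      have a1 : z ∈ t '' D ∨ z ∈ Z 0 := by
        by_contra hcon
        push Not at hcon
        exact hz (hy2 z hzD hcon.1 hcon.2)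
      have a2 : z ∈ (t * t) '' D ∨ z ∈ Z 1 := by
        by_contra hcon
        push Not at hcon
        exact hz' (hy'2 z hzD hcon.1 hcon.2)
      rcases a1 with a1 | a1
      · rcases a2 with a2 | a2
        · obtain ⟨a, ha, rfl⟩ := a1
          obtain ⟨b, hb, hab⟩ := a2
          have h4 : t (t b) = t a := hab
          have h5 : t b = a := t.injective h4
          exact hT.d1 b (hDA b hb) (by rw [h5]; exact hDA a ha)
        · exact hZ3 1 a2 (Or.inl (Or.inr a1))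
      · rcases a2 with a2 | a2
        · exact hZ3 0 a1 (Or.inr a2)
        · exact Set.disjoint_left.1 (hZ4 0 1 (by decide)) a1 a2)
    (fun a ha h4 => by
      rw [hyt a ha] at h4
      exact hT.d1 a (hDA a ha) (hDA _ h4))
    (fun a ha h4 => by
      rw [hyt' a ha] at h4
      exact hT.d2 a (hDA a ha) (hDA _ h4))
  have hrc : r = y * y' * y⁻¹ * y'⁻¹ := by
    ext z
    by_cases hz0 : z ∈ D
    · rw [c1 z hz0, hr1 z hz0, hyt z hz0]
    by_cases hz1 : ∃ a ∈ D, z = t a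
    · obtain ⟨a, ha, rfl⟩ := hz1
      have h4 := c2 a ha
      rw [hyt a ha, hyt' a ha] at h4
      rw [h4, hr2 a ha]
    by_cases hz2 : ∃ a ∈ D, z = t (t a)
    · obtain ⟨a, ha, rfl⟩ := hz2
      have h4 := c3 a ha
      rw [hyt' a ha] at h4
      rw [h4]
      have h5 := hr.cyc a ha
      rw [hr1 a ha, hr2 a ha] at h5
      exact h5
    push Not at hz1 hz2
    rw [c4 z hz0 (fun a ha => by rw [hyt a ha]; exact hz1 a ha)
      (fun a ha => by rw [hyt' a ha]; exact hz2 a ha)]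
    refine hr.out z hz0 (fun a ha => by rw [hr1 a ha]; exact hz1 a ha) (fun a ha => ?_)
    rw [hr1 a ha, hr2 a ha]
    exact hz2 a ha
  rw [hrc]
  exact G.mul_mem (G.mul_mem (G.mul_mem hy hy') (G.inv_mem hy)) (G.inv_mem hy')

end Pool.Agent.Q144.VS
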