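import Pool.Agent.Q27.VS.Stm

/-!
# Project VS: job UNION
-/

set_option autoImplicit false
set_option linter.unusedSectionVars false

open Set Topology Filter

namespace Pool.Agent.Q144.VS

open Pool.Agent.Q27.VS

section union

variable {X : Type} [TopologicalSpace X] [CSp X] {G : Subgroup (X ≃ₜ X)}

theorem uni_three (hC : S_cycle X) (hV : Vig G) (hS : Simp G) {g₁ g₂ : X ≃ₜ X} (h₁ : g₁ ∈ G)
    (h₂ : g₂ ∈ G) {D : Set X} (hD : IsClopen D) (d1 : Disjoint D (g₁ '' D))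
    (d2 : Disjoint D (g₂ '' D)) (d3 : Disjoint (g₁ '' D) (g₂ '' D)) :
    ∃ c ∈ G, IsTri c D ∧ (∀ b ∈ D, c b = g₁ b) ∧ (∀ b ∈ D, c (g₁ b) = g₂ b) ∧
      ∀ x, x ∉ D → x ∉ g₁ '' D → x ∉ g₂ '' D → c x = x := by
  have hone : (1 : X ≃ₜ X) '' D = D := by
    ext z
    constructor
    · rintro ⟨a, ha, rfl⟩
      exact ha
    · intro hz
      exact ⟨z, hz, rfl⟩
  obtain ⟨c, hc, hc3, hcs, hco⟩ := hC G hV hS 3 (fun s => if s = 0 then 1 else if s = 1 then g₁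
    else g₂) D (by decide) hD (by
      intro s
      split_ifs
      · exact G.one_mem
      · exact h₁
      · exact h₂) (by
      intro s hs t ht hst
      have hs' : s = 0 ∨ s = 1 ∨ s = 2 := by omega
      have ht' : t = 0 ∨ t = 1 ∨ t = 2 := by omega
      rcases hs' with rfl | rfl | rfl <;> rcases ht' with rfl | rfl | rfl
      · exact absurd rfl hst
      · simpa [hone] using d1
      · simpa [hone] using d2
      · simpa [hone] using d1.symm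
      · exact absurd rfl hst
      · simpa using d3
      · simpa [hone] using d2.symm
      · simpa using d3.symm
      · exact absurd rfl hst) (by simp)
  have e1 : ∀ b ∈ D, c b = g₁ b := by
    intro b hb
    have := hcs 1 (by norm_num) b hb
    simpa using this
  have e2 : ∀ b ∈ D, c (c b) = g₂ b := by
    intro b hb
    have := hcs 2 (by norm_num) b hb
    simpa [pow_two] using this
  have e3 : ∀ x, c (c (c x)) = x := by
    intro x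
    have := congrArg (fun f : X ≃ₜ X => f x) hc3
    simpa [pow_succ] using this
  have e4 : ∀ x, x ∉ D → x ∉ g₁ '' D → x ∉ g₂ '' D → c x = x := by
    intro x hx1 hx2 hx3
    refine hco x fun s hs => ?_
    have hs' : s = 0 ∨ s = 1 ∨ s = 2 := by omega
    rcases hs' with rfl | rfl | rfl
    · simpa [hone] using hx1
    · simpa using hx2
    · simpa using hx3
  refine ⟨c, hc, ⟨?_, ?_, fun x _ => e3 x, ?_⟩, e1, fun b hb => by rw [← e1 b hb, e2 b hb], e4⟩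
  · intro b hb h
    rw [e1 b hb] at h
    exact Set.disjoint_left.1 d1 h ⟨b, hb, rfl⟩
  · intro b hb h
    rw [e2 b hb] at h
    exact Set.disjoint_left.1 d2 h ⟨b, hb, rfl⟩
  · intro x hx h3 h4
    refine e4 x hx ?_ ?_
    · rintro ⟨a, ha, rfl⟩
      exact h3 a ha (e1 a ha).symm
    · rintro ⟨a, ha, rfl⟩
      exact h4 a ha (e2 a ha).symm

theorem uni_move (hC : S_cycle X) (hV : Vig G) (hS : Simp G) {U D F T : Set X}
    (hD : IsClopen D) (hF : IsClopen F) (hT : IsClopen T) (hDU : D ⊆ U) (hTU : T ⊆ U)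
    (hDu : D ≠ univ) (hne : (T \ (F ∪ D)).Nonempty) :
    ∃ ρ ∈ Alt G U, ρ ∈ G ∧ (∀ a ∈ D, ρ a ∈ T ∧ ρ a ∉ F ∧ ρ a ∉ D) ∧
      (∀ x ∈ F, x ∉ D → ρ x = x) ∧ (T \ (F ∪ D ∪ ρ '' D)).Nonempty := by
  rcases D.eq_empty_or_nonempty with rfl | ⟨d, hd⟩
  · refine ⟨1, Subgroup.one_mem _, G.one_mem, fun a ha => absurd ha (notMem_empty a),
      fun x _ _ => rfl, ?_⟩
    simpa using hne
  have hTFD : IsClopen (T \ (F ∪ D)) := hT.diff (hF.union hD)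
  obtain ⟨Y, hY1, hY2, hY3, hY4, hY5⟩ := pieces 2 hTFD.2 hne
  have hYu : ∀ i, Y i ≠ univ := by
    intro i h
    have h1 : d ∈ Y i := by
      rw [h]
      trivial
    exact (hY3 i h1).2 (Or.inr hd)
  have hg : ∀ i, ∃ g ∈ G, g '' D ⊆ Y i := by
    intro i
    obtain ⟨g, hg, h1, -⟩ := hV univ D (Y i) isClopen_univ hD (hY1 i) (subset_univ _)
      (subset_univ _) ⟨d, hd⟩ (hY2 i) hDu (hYu i)
    exact ⟨g, hg, h1⟩
  obtain ⟨g₁, hg₁, hi₁⟩ := hg 0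
  obtain ⟨g₂, hg₂, hi₂⟩ := hg 1
  have dis : ∀ i, ∀ x ∈ Y i, x ∉ D := fun i x hx h => (hY3 i hx).2 (Or.inr h)
  obtain ⟨c, hc, hct, hc1, -, hc3⟩ := uni_three hC hV hS hg₁ hg₂ hD
    (by
      rw [Set.disjoint_left]
      exact fun x hx h => dis 0 x (hi₁ h) hx)
    (by
      rw [Set.disjoint_left]
      exact fun x hx h => dis 1 x (hi₂ h) hx)
    ((hY4 0 1 (by decide)).mono hi₁ hi₂)
  have hsup : Sup c U := by
    intro x hx
    refine hc3 x (fun h => hx (hDU h)) (fun h => hx (hTU (hY3 0 (hi₁ h)).1))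
      (fun h => hx (hTU (hY3 1 (hi₂ h)).1))
  have himg : ∀ a ∈ D, c a ∈ Y 0 := by
    intro a ha
    rw [hc1 a ha]
    exact hi₁ ⟨a, ha, rfl⟩
  refine ⟨c, Subgroup.subset_closure ⟨hc, hsup, D, hD, hct⟩, hc, fun a ha => ?_, fun x hx hxD => ?_,
    ?_⟩
  · have h1 := hY3 0 (himg a ha)
    exact ⟨h1.1, fun h => h1.2 (Or.inl h), fun h => h1.2 (Or.inr h)⟩
  · exact hc3 x hxD (fun h => (hY3 0 (hi₁ h)).2 (Or.inl hx)) (fun h => (hY3 1 (hi₂ h)).2 (Or.inl hx))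
  · obtain ⟨z, hz, hz2⟩ := hY5
    refine ⟨z, hz.1, ?_⟩
    rintro (h | ⟨a, ha, h⟩)
    · exact hz.2 h
    · apply hz2
      rw [mem_iUnion]
      exact ⟨0, h ▸ himg a ha⟩

end union

/-- JOB UNION -/
theorem union (X : Type) [TopologicalSpace X] [CSp X] (h1 : S_split X) (hC : S_cycle X) :
    S_union X := by
  intro G hV hS K U V hU hVc hUV hKU hKV
  refine (Subgroup.closure_le K).2 ?_
  rintro t ⟨htG, htS, A, hA, hT⟩
  refine h1 K t A hA hT fun x hx => ?_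
  have hch : ∀ z, t z ≠ z → ∃ c : Set X, IsClopen c ∧ Alt G c ≤ K ∧ U ∩ V ⊆ c ∧ z ∈ c := by
    intro z hz
    have h2 : z ∈ U ∪ V := by
      by_contra h3
      exact hz (htS z h3)
    rcases h2 with h2 | h2
    · exact ⟨U, hU, hKU, inter_subset_left, h2⟩
    · exact ⟨V, hVc, hKV, inter_subset_right, h2⟩
  have hm0 : t x ≠ x := fun h => hT.d1 x hx (by rw [h]; exact hx)
  have hm1 : t (t x) ≠ t x := fun h => hm0 (t.injective h)
  have hm2 : t (t (t x)) ≠ t (t x) := fun h => hm1 (t.injective h)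
  obtain ⟨c₀, hc₀, hK₀, hW₀, hx₀⟩ := hch x hm0
  obtain ⟨c₁, hc₁, hK₁, hW₁, hx₁⟩ := hch (t x) hm1
  obtain ⟨c₂, hc₂, hK₂, hW₂, hx₂⟩ := hch (t (t x)) hm2
  obtain ⟨p, hpW, hp⟩ := open_avoid (hU.2.inter hVc.2) hUV (F := {x, t x, t (t x)}) (by simp)
  have hp0 : x ≠ p := fun h => hp (by simp [h])
  have hp1 : t x ≠ p := fun h => hp (by simp [h])
  have hp2 : t (t x) ≠ p := fun h => hp (by simp [h])
  have ht1 : Continuous fun z => t z := t.continuous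
  have ht2 : Continuous fun z => t (t z) := t.continuous.comp t.continuous
  obtain ⟨N, hN, hxN, hNs⟩ := clopen_nhd (x := x)
    (U := A ∩ (c₀ ∩ {p}ᶜ) ∩ ((fun z => t z) ⁻¹' (c₁ ∩ {p}ᶜ)) ∩ ((fun z => t (t z)) ⁻¹' (c₂ ∩ {p}ᶜ)))
    (by
      refine inter_mem (inter_mem (inter_mem (hA.2.mem_nhds hx)
        ((hc₀.2.inter isOpen_compl_singleton).mem_nhds ⟨hx₀, hp0⟩)) ?_) ?_
      · exact ((hc₁.2.inter isOpen_compl_singleton).preimage ht1).mem_nhds ⟨hx₁, hp1⟩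
      · exact ((hc₂.2.inter isOpen_compl_singleton).preimage ht2).mem_nhds ⟨hx₂, hp2⟩)
  refine ⟨N, hN, hxN, fun z hz => (hNs hz).1.1.1, ?_⟩
  intro D hD hDN r hr hr1 hr2
  have hDA : ∀ a ∈ D, a ∈ A := fun a ha => (hNs (hDN ha)).1.1.1
  have hb0 : ∀ a ∈ D, a ∈ c₀ ∧ a ≠ p := fun a ha => (hNs (hDN ha)).1.1.2
  have hb1 : ∀ a ∈ D, t a ∈ c₁ ∧ t a ≠ p := fun a ha => (hNs (hDN ha)).1.2
  have hb2 : ∀ a ∈ D, t (t a) ∈ c₂ ∧ t (t a) ≠ p := fun a ha => (hNs (hDN ha)).2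
  obtain ⟨D₁, hD₁⟩ : ∃ S, S = t '' D := ⟨_, rfl⟩
  obtain ⟨D₂, hD₂⟩ : ∃ S, S = (t * t) '' D := ⟨_, rfl⟩
  have hm₁ : ∀ z ∈ D₁, ∃ a ∈ D, z = t a := by
    intro z hz
    rw [hD₁] at hz
    obtain ⟨a, ha, h⟩ := hz
    exact ⟨a, ha, h.symm⟩
  have hm₂ : ∀ z ∈ D₂, ∃ a ∈ D, z = t (t a) := by
    intro z hz
    rw [hD₂] at hz
    obtain ⟨a, ha, h⟩ := hz
    exact ⟨a, ha, h.symm⟩
  have hin₁ : ∀ a ∈ D, t a ∈ D₁ := fun a ha => by rw [hD₁]; exact ⟨a, ha, rfl⟩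
  have hin₂ : ∀ a ∈ D, t (t a) ∈ D₂ := fun a ha => by rw [hD₂]; exact ⟨a, ha, rfl⟩
  have hcl₁ : IsClopen D₁ := by rw [hD₁]; exact image_clopen t hD
  have hcl₂ : IsClopen D₂ := by rw [hD₂]; exact image_clopen (t * t) hD
  have d01 : ∀ z ∈ D, z ∉ D₁ := by
    intro z hz h
    obtain ⟨a, ha, rfl⟩ := hm₁ z h
    exact hT.d1 a (hDA a ha) (hDA _ hz)
  have d02 : ∀ z ∈ D, z ∉ D₂ := by
    intro z hz h
    obtain ⟨a, ha, rfl⟩ := hm₂ z h
    exact hT.d2 a (hDA a ha) (hDA _ hz)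
  have d12 : ∀ z ∈ D₁, z ∉ D₂ := by
    intro z hz h
    obtain ⟨a, ha, rfl⟩ := hm₁ z hz
    obtain ⟨b, hb, hab⟩ := hm₂ _ h
    have h5 : a = t b := t.injective hab
    exact hT.d1 b (hDA b hb) (by rw [← h5]; exact hDA a ha)
  have hpD : p ∉ D := fun h => (hb0 p h).2 rfl
  have hpD₁ : p ∉ D₁ := by
    intro h
    obtain ⟨a, ha, h⟩ := hm₁ p h
    exact (hb1 a ha).2 h.symm
  have hpD₂ : p ∉ D₂ := by
    intro h
    obtain ⟨a, ha, h⟩ := hm₂ p h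
    exact (hb2 a ha).2 h.symm
  have hW : IsClopen (U ∩ V) := hU.inter hVc
  -- the first move
  obtain ⟨ρ₀, hρ₀, hρ₀G, ha₀, hf₀, hn₀⟩ := uni_move hC hV hS (U := c₀) (D := D) (F := D₁ ∪ D₂)
    (T := U ∩ V) hD (hcl₁.union hcl₂) hW (fun a ha => (hb0 a ha).1) hW₀
    (fun h => hpD (by rw [h]; trivial)) ⟨p, hpW, by
      rintro ((h | h) | h)
      · exact hpD₁ h
      · exact hpD₂ h
      · exact hpD h⟩
  have hR₀ : IsClopen (ρ₀ '' D) := image_clopen ρ₀ hD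
  obtain ⟨q₀, hq₀W, hq₀⟩ := hn₀
  -- the second move
  obtain ⟨ρ₁, hρ₁, hρ₁G, ha₁, hf₁, hn₁⟩ := uni_move hC hV hS (U := c₁) (D := D₁)
    (F := D ∪ D₂ ∪ ρ₀ '' D) (T := U ∩ V) hcl₁ ((hD.union hcl₂).union hR₀) hW
    (fun z hz => by
      obtain ⟨a, ha, rfl⟩ := hm₁ z hz
      exact (hb1 a ha).1) hW₁
    (fun h => hpD₁ (by rw [h]; trivial)) ⟨q₀, hq₀W, by
      rintro (((h | h) | h) | h)
      · exact hq₀ (Or.inl (Or.inr h))
      · exact hq₀ (Or.inl (Or.inl (Or.inr h)))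
      · exact hq₀ (Or.inr h)
      · exact hq₀ (Or.inl (Or.inl (Or.inl h)))⟩
  have hR₁ : IsClopen (ρ₁ '' D₁) := image_clopen ρ₁ hcl₁
  obtain ⟨q₁, hq₁W, hq₁⟩ := hn₁
  -- the third move
  obtain ⟨ρ₂, hρ₂, hρ₂G, ha₂, hf₂, -⟩ := uni_move hC hV hS (U := c₂) (D := D₂)
    (F := D ∪ D₁ ∪ ρ₀ '' D ∪ ρ₁ '' D₁) (T := U ∩ V) hcl₂ (((hD.union hcl₁).union hR₀).union hR₁) hW
    (fun z hz => by
      obtain ⟨a, ha, rfl⟩ := hm₂ z hz
      exact (hb2 a ha).1) hW₂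
    (fun h => hpD₂ (by rw [h]; trivial)) ⟨q₁, hq₁W, by
      rintro ((((h | h) | h) | h) | h)
      · exact hq₁ (Or.inl (Or.inl (Or.inl (Or.inl h))))
      · exact hq₁ (Or.inl (Or.inr h))
      · exact hq₁ (Or.inl (Or.inl (Or.inr h)))
      · exact hq₁ (Or.inr h)
      · exact hq₁ (Or.inl (Or.inl (Or.inl (Or.inr h))))⟩
  obtain ⟨ρ, hρ⟩ : ∃ ρ, ρ = ρ₂ * ρ₁ * ρ₀ := ⟨_, rfl⟩
  have hρK : ρ ∈ K := by
    rw [hρ]
    exact K.mul_mem (K.mul_mem (hK₂ hρ₂) (hK₁ hρ₁)) (hK₀ hρ₀)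
  have hρG : ρ ∈ G := by
    rw [hρ]
    exact G.mul_mem (G.mul_mem hρ₂G hρ₁G) hρ₀G
  have hmv : ∀ z, z ∈ D ∨ z ∈ D₁ ∨ z ∈ D₂ → ρ z ∈ U ∩ V := by
    intro z hz
    rw [hρ, Homeomorph.mul_apply, Homeomorph.mul_apply]
    rcases hz with hz | hz | hz
    · obtain ⟨b1, b2, b3⟩ := ha₀ z hz
      rw [hf₁ _ (Or.inr ⟨z, hz, rfl⟩) (fun h => b2 (Or.inl h)),
        hf₂ _ (Or.inl (Or.inr ⟨z, hz, rfl⟩)) (fun h => b2 (Or.inr h))]
      exact b1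
    · rw [hf₀ z (Or.inl hz) (fun h => d01 z h hz)]
      obtain ⟨b1, b2, b3⟩ := ha₁ z hz
      rw [hf₂ _ (Or.inr ⟨z, hz, rfl⟩) (fun h => b2 (Or.inl (Or.inr h)))]
      exact b1
    · rw [hf₀ z (Or.inr hz) (fun h => d02 z h hz),
        hf₁ z (Or.inl (Or.inr hz)) (fun h => d12 z h hz)]
      exact (ha₂ z hz).1
  -- r is in G
  obtain ⟨c, hc, hct, hcc1, hcc2, hcc3⟩ := uni_three hC hV hS htG (G.mul_mem htG htG) hD
    (by
      rw [← hD₁, Set.disjoint_left]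
      exact d01)
    (by
      rw [← hD₂, Set.disjoint_left]
      exact d02)
    (by
      rw [← hD₁, ← hD₂, Set.disjoint_left]
      exact d12)
  have hr3 : ∀ a ∈ D, r (t (t a)) = a := by
    intro a ha
    have h5 := hr.cyc a ha
    rwa [hr1 a ha, hr2 a ha] at h5
  have hrout : ∀ z, z ∉ D → z ∉ D₁ → z ∉ D₂ → r z = z := by
    intro z h3 h4 h5
    refine hr.out z h3 (fun a ha h => h4 ?_) (fun a ha h => h5 ?_)
    · rw [h, hr1 a ha]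
      exact hin₁ a ha
    · rw [h, hr1 a ha, hr2 a ha]
      exact hin₂ a ha
  have hrc : r = c := by
    ext z
    by_cases hz0 : z ∈ D
    · rw [hr1 z hz0, hcc1 z hz0]
    by_cases hz1 : z ∈ D₁
    · obtain ⟨a, ha, rfl⟩ := hm₁ z hz1
      rw [hr2 a ha, hcc2 a ha]
      rfl
    by_cases hz2 : z ∈ D₂
    · obtain ⟨a, ha, rfl⟩ := hm₂ z hz2
      have h5 := hct.cyc a ha
      rw [hcc1 a ha, hcc2 a ha] at h5
      rw [hr3 a ha]
      exact h5.symm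
    · rw [hrout z hz0 hz1 hz2, hcc3 z hz0 (by rw [← hD₁]; exact hz1) (by rw [← hD₂]; exact hz2)]
  have hrG : r ∈ G := by
    rw [hrc]
    exact hc
  have hrS : Sup r (D ∪ D₁ ∪ D₂) := by
    intro z hz
    exact hrout z (fun h => hz (Or.inl (Or.inl h))) (fun h => hz (Or.inl (Or.inr h)))
      (fun h => hz (Or.inr h))
  have hfin : ρ * r * ρ⁻¹ ∈ Alt G U := by
    refine Subgroup.subset_closure ⟨G.mul_mem (G.mul_mem hρG hrG) (G.inv_mem hρG), ?_,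
      ρ '' D, image_clopen ρ hD, hr.conj ρ⟩
    refine (hrS.conj ρ).mono ?_
    rintro _ ⟨z, hz, rfl⟩
    refine (hmv z ?_).1
    rcases hz with (hz | hz) | hz
    · exact Or.inl hz
    · exact Or.inr (Or.inl hz)
    · exact Or.inr (Or.inr hz)
  have h6 : r = ρ⁻¹ * (ρ * r * ρ⁻¹) * ρ := by group
  rw [h6]
  exact K.mul_mem (K.mul_mem (K.inv_mem hρK) (hKU hfin)) hρK

end Pool.Agent.Q144.VS
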